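import Mathlib

/-!
# Moments of the centered Gaussian multiplicative chaos (MP_e22585_pr): definitions and pieces
-/

set_option autoImplicit false

open MeasureTheory ProbabilityTheory Filter Topology Set
open scoped ENNReal BoundedContinuousFunction

namespace Pool.Agent.L5helper98.CG

noncomputable section

/-- distance of two points of `[0,1)`: on the circle (`c = true`) or on the interval (`c = false`) -/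
def dst (c : Bool) (s t : ℝ) : ℝ := if c = true then min |s - t| (1 - |s - t|) else |s - t|

/-- the covariance of the regularised field at two points at distance `d` -/
def cv (r : ℝ → ℝ) (μ ε d : ℝ) : ℝ :=
  if ε ≤ d then -(μ * Real.log (r d))
  else μ * (-Real.log (r ε) + (1 - d / ε) * (ε * deriv (fun t => Real.log (r t)) ε))

/-- the assumptions on `r` (circle case `c = true`, interval case `c = false`) -/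
structure Adm (c : Bool) (r : ℝ → ℝ) : Prop where
  pos : ∀ t ∈ Ioo (0 : ℝ) 1, 0 < r t
  smooth : ContDiffOn ℝ (⊤ : ℕ∞) r (Ioo 0 1)
  even : ∀ t ∈ Ioo (-1 : ℝ) 1, r (-t) = r t
  lim : Tendsto (fun t => t * deriv (fun s => Real.log (r s)) t) (𝓝[>] 0) (𝓝 1)
  bdry : if c = true then ∀ t ∈ Ioo (0 : ℝ) 1, r t = r (1 - t) else r 1 = 1

/-- `ω` is (a jointly measurable version of) the Gaussian process `ω_{μ,ε}` on `[0,1)` -/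
structure Field (c : Bool) (r : ℝ → ℝ) (μ ε : ℝ) {Ω : Type} [MeasurableSpace Ω]
    (P : Measure Ω) (ω : ℝ → Ω → ℝ) : Prop where
  meas : Measurable (fun p : ℝ × Ω => ω p.1 p.2)
  gauss : IsGaussianProcess (fun t : Ico (0 : ℝ) 1 => ω (t : ℝ)) P
  mean : ∀ t ∈ Ico (0 : ℝ) 1, ∫ x, ω t x ∂P = -(Var[ω t; P]) / 2
  cov : ∀ s ∈ Ico (0 : ℝ) 1, ∀ t ∈ Ico (0 : ℝ) 1, cov[ω s, ω t; P] = cv r μ ε (dst c s t)

/-- `∫_0^1 w(u) e^{ω(u)} du` -/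
def mass {Ω : Type} (w : ℝ → ℝ) (ω : ℝ → Ω → ℝ) (x : Ω) : ℝ :=
  ∫ u in Ico (0 : ℝ) 1, w u * Real.exp (ω u x)

/-! ### finite dimensional moments -/

/-- `E (∑ p_i e^{X_i - C_ii/2})^q` for a centred Gaussian vector `X` with covariance `C` -/
def gm {n : ℕ} (C : Matrix (Fin n) (Fin n) ℝ) (p : Fin n → ℝ) (q : ℝ) : ℝ≥0∞ :=
  ∫⁻ x : EuclideanSpace ℝ (Fin n),
    ENNReal.ofReal ((∑ i, p i * Real.exp (x i - C i i / 2)) ^ q) ∂(multivariateGaussian 0 C)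

/-- the model kernel: `m ∑_{j < k ≤ n} (k - j)/k²`, about `m log (n/j)` -/
def kap (m : ℝ) (n j : ℕ) : ℝ := m * ∑ k ∈ Finset.Ioc j n, ((k : ℝ) - j) / (k : ℝ) ^ 2

/-- the Toeplitz matrix of the model kernel at `N` points -/
def Kap (m : ℝ) (n N : ℕ) : Matrix (Fin N) (Fin N) ℝ :=
  fun i j => kap m n (Nat.dist (i : ℕ) (j : ℕ))

/-- the model moments -/
def aa (m : ℝ) (n : ℕ) (q : ℝ) : ℝ≥0∞ := gm (Kap m n n) (fun _ => 1 / (n : ℝ)) q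

/-! ### The pieces -/

/-- STEIN: Gaussian integration by parts -/
def St_STEIN : Prop := ∀ (n : ℕ) (C : Matrix (Fin n) (Fin n) ℝ), C.PosSemidef →
  ∀ f : (Fin n → ℝ) → ℝ, ContDiff ℝ 1 f →
  (∃ K : ℝ, ∀ x : Fin n → ℝ, |f x| ≤ K * Real.exp (K * ∑ i, |x i|) ∧
    ‖fderiv ℝ f x‖ ≤ K * Real.exp (K * ∑ i, |x i|)) → ∀ i : Fin n,
  ∫ x : EuclideanSpace ℝ (Fin n), x i * f (fun j => x j) ∂(multivariateGaussian 0 C) =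
    ∑ j, C i j * ∫ x : EuclideanSpace ℝ (Fin n),
      fderiv ℝ f (fun k => x k) (Pi.single j 1) ∂(multivariateGaussian 0 C)

/-- KAH: Kahane's convexity inequality -/
def St_KAH : Prop := ∀ (n : ℕ) (C C' : Matrix (Fin n) (Fin n) ℝ), C.PosSemidef → C'.PosSemidef →
  ∀ p : Fin n → ℝ, (∀ i, 0 ≤ p i) → (∃ i, 0 < p i) →
  (∀ i j, 0 < p i → 0 < p j → C i j ≤ C' i j) → ∀ q : ℝ,
  ((1 ≤ q ∨ q ≤ 0) → gm C p q ≤ gm C' p q) ∧ (0 ≤ q → q ≤ 1 → gm C' p q ≤ gm C p q)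

/-- MARG: marginals -/
def St_MARG : Prop := ∀ (n k : ℕ) (C : Matrix (Fin n) (Fin n) ℝ), C.PosSemidef →
  ∀ (f : Fin k → Fin n), Function.Injective f → ∀ p : Fin n → ℝ, (∀ i, i ∉ range f → p i = 0) →
  ∀ q : ℝ, gm C p q = gm (C.submatrix f f) (fun i => p (f i)) q

/-- ADD: adding a constant to the covariance -/
def St_ADD : Prop := ∀ (n : ℕ) (C : Matrix (Fin n) (Fin n) ℝ), C.PosSemidef → ∀ b : ℝ, 0 ≤ b →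
  ∀ p : Fin n → ℝ, (∀ i, 0 ≤ p i) → ∀ q : ℝ,
  gm (fun i j => C i j + b) p q = ENNReal.ofReal (Real.exp (b * (q * (q - 1)) / 2)) * gm C p q

/-- IND: two uncorrelated blocks of coordinates are independent, with the marginal laws -/
def St_IND : Prop := ∀ (n k l : ℕ) (C : Matrix (Fin n) (Fin n) ℝ), C.PosSemidef →
  ∀ (f : Fin k → Fin n) (g : Fin l → Fin n), Function.Injective f → Function.Injective g →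
  (∀ i j, C (f i) (g j) = 0) →
  ∀ (F : (Fin k → ℝ) → ℝ≥0∞) (G : (Fin l → ℝ) → ℝ≥0∞), Measurable F → Measurable G →
  ∫⁻ x, F (fun i => x (f i)) * G (fun j => x (g j)) ∂(multivariateGaussian 0 C) =
    (∫⁻ x, F (fun i => x i) ∂(multivariateGaussian 0 (C.submatrix f f))) *
    ∫⁻ x, G (fun j => x j) ∂(multivariateGaussian 0 (C.submatrix g g))

/-- KPSD: the model kernel is positive semidefinite -/
def St_KPSD : Prop := ∀ (m : ℝ) (n N : ℕ), 0 ≤ m → (Kap m n N).PosSemidef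

/-- KLOG: elementary estimates of the model kernel -/
def St_KLOG : Prop :=
  (∀ n j : ℕ, n ≤ j → kap 1 n j = 0) ∧ (∀ n j : ℕ, 0 ≤ kap 1 n j) ∧
  (∀ n j : ℕ, 1 ≤ n → j ≤ n → Real.log ((n : ℝ) / max (j : ℝ) 1) - 2 ≤ kap 1 n j) ∧
  (∀ n n' j : ℕ, 1 ≤ n → n ≤ n' → kap 1 n' j - kap 1 n j ≤ Real.log ((n' : ℝ) / n)) ∧
  (∀ (m : ℝ) (n j : ℕ), kap m n j = m * kap 1 n j)

/-- POS: moments of order `q > 1`, `m q < 2`, of the model -/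
def St_POS : Prop := ∀ m q : ℝ, 0 < m → 1 < q → m * q < 2 →
  ∃ B : ℝ≥0∞, B < ∞ ∧ ∀ k : ℕ, aa m (3 ^ k) q ≤ B

/-- NEG: negative moments of the model -/
def St_NEG : Prop := ∀ m q : ℝ, 0 < m → m < 2 → q < 0 →
  ∃ B : ℝ≥0∞, B < ∞ ∧ ∀ k : ℕ, aa m (3 ^ k) q ≤ B

/-- RIE: passage from Riemann sums to the field -/
def St_RIE : Prop := ∀ (c : Bool) (r : ℝ → ℝ) (μ ε : ℝ), Adm c r → 0 < μ → 0 < ε → ε < 1 / 2 →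
  ∀ (Ω : Type) [MeasurableSpace Ω] (P : Measure Ω) [IsProbabilityMeasure P] (ω : ℝ → Ω → ℝ),
  Field c r μ ε P ω → ∀ w : ℝ → ℝ, Measurable w → (∀ u, 0 ≤ w u) → (∃ K, ∀ u, w u ≤ K) →
  ∀ (q : ℝ) (B : ℝ≥0∞),
  (∀ᶠ k : ℕ in atTop, gm (n := 3 ^ k)
      (fun i j => cv r μ ε (dst c ((i : ℕ) / (3 : ℝ) ^ k) ((j : ℕ) / (3 : ℝ) ^ k)))
      (fun i => ∫ u in Ico (((i : ℕ) : ℝ) / (3 : ℝ) ^ k) ((((i : ℕ) : ℝ) + 1) / (3 : ℝ) ^ k), w u)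
      q ≤ B) →
  ∫⁻ x, ENNReal.ofReal (mass w ω x ^ q) ∂P ≤ B

/-- the covariance matrices of the fields on the grid are positive semidefinite -/
def St_FPSD : Prop := ∀ (c : Bool) (r : ℝ → ℝ) (μ ε : ℝ),
  ∀ (Ω : Type) [MeasurableSpace Ω] (P : Measure Ω) [IsProbabilityMeasure P] (ω : ℝ → Ω → ℝ),
  Field c r μ ε P ω → ∀ (n : ℕ) (t : Fin n → ℝ), (∀ i, t i ∈ Ico (0 : ℝ) 1) →
  Matrix.PosSemidef (fun i j : Fin n => cv r μ ε (dst c (t i) (t j)))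

/-- KER: two sided bounds of the covariance of the fields. `hB` follows from the existence of one
field. -/
def St_KER : Prop := ∀ (c : Bool) (r : ℝ → ℝ) (μ : ℝ), Adm c r → 0 < μ →
  (∀ δ ∈ Ioo (0 : ℝ) (1 / 2), ∃ B : ℝ, ∀ d : ℝ, δ ≤ d → d < 1 → (c = true → d ≤ 1 / 2) →
    |Real.log (r d)| ≤ B) →
  (∀ η : ℝ, 0 < η → ∃ K ε₀ : ℝ, 0 ≤ K ∧ 0 < ε₀ ∧ ε₀ < 1 / 2 ∧ ∀ ε : ℝ, 0 < ε → ε ≤ ε₀ →
    ∀ d : ℝ, 0 ≤ d → d < 1 → (c = true → d ≤ 1 / 2) →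
      (μ - η) * Real.log (1 / max d ε) - K ≤ cv r μ ε d ∧
      cv r μ ε d ≤ (μ + η) * Real.log (1 / max d ε) + K) ∧
  Tendsto (fun ε => cv r μ ε 0 + μ * (Real.log (r ε) - 1)) (𝓝[>] 0) (𝓝 0)

/-- BDD: boundedness of `log r` away from `0` from the existence of the fields -/
def St_BDD : Prop := ∀ (c : Bool) (r : ℝ → ℝ) (μ : ℝ), Adm c r → 0 < μ →
  (∃ᶠ ε : ℝ in 𝓝[>] 0, ∃ (Ω : Type) (_ : MeasurableSpace Ω) (P : Measure Ω)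
    (_ : IsProbabilityMeasure P) (ω : ℝ → Ω → ℝ), Field c r μ ε P ω) →
  ∀ δ ∈ Ioo (0 : ℝ) (1 / 2), ∃ B : ℝ, ∀ d : ℝ, δ ≤ d → d < 1 → (c = true → d ≤ 1 / 2) →
    |Real.log (r d)| ≤ B

/-- a family of fields indexed by `ε` -/
structure Fam (c : Bool) (r : ℝ → ℝ) (μ : ℝ) (Ω : ℝ → Type) [∀ ε, MeasurableSpace (Ω ε)]
    (P : ∀ ε, Measure (Ω ε)) (ω : ∀ ε, ℝ → Ω ε → ℝ) : Prop where
  adm : Adm c r
  mu_pos : 0 < μ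
  mu_lt : μ < 2
  prob : ∀ ε, IsProbabilityMeasure (P ε)
  field : ∀ᶠ ε in 𝓝[>] (0 : ℝ), Field c r μ ε (P ε) (ω ε)

/-- UNI: uniform moments of the total mass -/
def St_UNI : Prop := ∀ (c : Bool) (r : ℝ → ℝ) (μ : ℝ) (Ω : ℝ → Type)
  [∀ ε, MeasurableSpace (Ω ε)] (P : ∀ ε, Measure (Ω ε)) (ω : ∀ ε, ℝ → Ω ε → ℝ),
  Fam c r μ Ω P ω → ∀ q : ℝ, (q < 0 ∨ (1 < q ∧ q < 2 / μ)) →
  ∃ B : ℝ≥0∞, B < ∞ ∧ ∀ᶠ ε in 𝓝[>] (0 : ℝ),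
    ∫⁻ x, ENNReal.ofReal (mass (fun _ => 1) (ω ε) x ^ q) ∂(P ε) ≤ B ∧
    ∫⁻ x, ENNReal.ofReal (mass ((Ico (1 / 3) (2 / 3)).indicator fun _ => 1) (ω ε) x ^ q) ∂(P ε) ≤ B

/-- SMALL: moments of order `κ ∈ (0,1)` of a small interval (concave Kahane) -/
def St_SMALL : Prop := ∀ (c : Bool) (r : ℝ → ℝ) (μ : ℝ) (Ω : ℝ → Type)
  [∀ ε, MeasurableSpace (Ω ε)] (P : ∀ ε, Measure (Ω ε)) (ω : ∀ ε, ℝ → Ω ε → ℝ),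
  Fam c r μ Ω P ω → ∀ κ η : ℝ, 0 < κ → κ < 1 → 0 < η → η < μ → ∃ K : ℝ, 0 < K ∧
  ∀ᶠ ε in 𝓝[>] (0 : ℝ), ∀ a b : ℝ, 0 ≤ a → a < b → b ≤ 1 → b - a ≤ 1 / 2 →
    ∫⁻ x, ENNReal.ofReal (mass ((Ico a b).indicator fun _ => 1) (ω ε) x ^ κ) ∂(P ε) ≤
      ENNReal.ofReal (K * (b - a) ^ κ * (max (b - a) ε) ^ (κ * (1 - κ) * (μ - η) / 2))

/-- INS: the singular insertion has uniformly small mass near `0` and near `1` -/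
def St_INS : Prop := ∀ (c : Bool) (r : ℝ → ℝ) (μ : ℝ) (Ω : ℝ → Type)
  [∀ ε, MeasurableSpace (Ω ε)] (P : ∀ ε, Measure (Ω ε)) (ω : ∀ ε, ℝ → Ω ε → ℝ),
  Fam c r μ Ω P ω → ∀ q : ℝ, -1 / μ - 1 / 2 < q → ∀ η : ℝ, 0 < η →
  ∃ δ₀ : ℝ, 0 < δ₀ ∧ ∀ δ : ℝ, 0 < δ → δ ≤ δ₀ → ∀ᶠ ε in 𝓝[>] (0 : ℝ),
    (P ε) {x | η ≤ mass ((Ico 0 δ ∪ Ico (1 - δ) 1).indicator
      fun u => Real.exp (-(q * cv r μ ε (dst c u 0)))) (ω ε) x} ≤ ENNReal.ofReal η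

/-- TILT1: the finite dimensional change of measure (Cameron-Martin) -/
def St_TILT1 : Prop := ∀ (n : ℕ) (C : Matrix (Fin n) (Fin n) ℝ), C.PosSemidef →
  ∀ (i₀ : Fin n) (a : ℝ) (G : (Fin n → ℝ) → ℝ≥0∞), Measurable G →
  ∫⁻ x : EuclideanSpace ℝ (Fin n), ENNReal.ofReal (Real.exp (a * x i₀)) * G (fun i => x i)
      ∂(multivariateGaussian 0 C) =
    ENNReal.ofReal (Real.exp (a ^ 2 * C i₀ i₀ / 2)) *
      ∫⁻ x : EuclideanSpace ℝ (Fin n), G (fun i => x i + a * C i i₀)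
        ∂(multivariateGaussian 0 C)

/-- TILT: the change of measure -/
def St_TILT : Prop := ∀ (c : Bool) (r : ℝ → ℝ) (μ ε : ℝ), Adm c r → 0 < μ → 0 < ε → ε < 1 / 2 →
  ∀ (Ω : Type) [MeasurableSpace Ω] (P : Measure Ω) [IsProbabilityMeasure P] (ω : ℝ → Ω → ℝ),
  Field c r μ ε P ω → ∀ φ : ℝ → ℝ, Continuous φ → (∀ u, 0 < φ u) → ∀ q : ℝ,
  ∫⁻ x, ENNReal.ofReal ((∫ u in Ico (0 : ℝ) 1, φ u * Real.exp (ω u x - ω 0 x)) ^ q) ∂P =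
    ENNReal.ofReal (Real.exp (q * (q + 1) / 2 * cv r μ ε 0)) *
      ∫⁻ x, ENNReal.ofReal (mass (fun u => φ u * Real.exp (-(q * cv r μ ε (dst c u 0)))) ω x ^ q)
        ∂P

/-- the random measure `M` on `[0,1]` is the limit of `e^{ω_{μ,ε}(u)} du` -/
structure IsChaos (Ω : ℝ → Type) [∀ ε, MeasurableSpace (Ω ε)]
    (P : ∀ ε, Measure (Ω ε)) (ω : ∀ ε, ℝ → Ω ε → ℝ) {Ω' : Type} [MeasurableSpace Ω']
    (P' : Measure Ω') (M : Ω' → Measure ℝ) : Prop where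
  meas : Measurable M
  supp : ∀ᵐ y ∂P', M y (Icc 0 1)ᶜ = 0
  fin : ∀ᵐ y ∂P', M y univ < ∞
  lim : ∀ φ : ℝ → ℝ, Continuous φ → (∀ u, 0 < φ u) → ∀ f : ℝ →ᵇ ℝ,
    Tendsto (fun ε => ∫ x, f (mass φ (ω ε) x) ∂(P ε)) (𝓝[>] 0)
      (𝓝 (∫ y, f (∫ u in Icc (0 : ℝ) 1, φ u ∂(M y)) ∂P'))

/-- LAW1: convergence in law for nonnegative continuous weights; no atoms at the end points -/
def St_LAW1 : Prop := ∀ (c : Bool) (r : ℝ → ℝ) (μ : ℝ) (Ω : ℝ → Type)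
  [∀ ε, MeasurableSpace (Ω ε)] (P : ∀ ε, Measure (Ω ε)) (ω : ∀ ε, ℝ → Ω ε → ℝ),
  Fam c r μ Ω P ω → ∀ (Ω' : Type) [MeasurableSpace Ω'] (P' : Measure Ω')
  [IsProbabilityMeasure P'] (M : Ω' → Measure ℝ), IsChaos Ω P ω P' M →
  (∀ w : ℝ → ℝ, Continuous w → (∀ u, 0 ≤ w u) → ∀ f : ℝ →ᵇ ℝ,
    Tendsto (fun ε => ∫ x, f (mass w (ω ε) x) ∂(P ε)) (𝓝[>] 0)
      (𝓝 (∫ y, f (∫ u in Icc (0 : ℝ) 1, w u ∂(M y)) ∂P'))) ∧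
  (∀ᵐ y ∂P', M y {0} = 0 ∧ M y {1} = 0)

/-- LAW: convergence in law of the total mass with the singular insertion -/
def St_LAW : Prop := ∀ (c : Bool) (r : ℝ → ℝ) (μ : ℝ) (Ω : ℝ → Type)
  [∀ ε, MeasurableSpace (Ω ε)] (P : ∀ ε, Measure (Ω ε)) (ω : ∀ ε, ℝ → Ω ε → ℝ),
  Fam c r μ Ω P ω → ∀ (Ω' : Type) [MeasurableSpace Ω'] (P' : Measure Ω')
  [IsProbabilityMeasure P'] (M : Ω' → Measure ℝ), IsChaos Ω P ω P' M →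
  ∀ φ : ℝ → ℝ, Continuous φ → (∀ u, 0 < φ u) → ∀ q : ℝ, -1 / μ - 1 / 2 < q →
  (∀ᵐ y ∂P', IntegrableOn (fun u => r u ^ (μ * q) * φ u) (Ioo 0 1) (M y)) ∧
  (∀ᵐ y ∂P', M y {0} = 0 ∧ M y {1} = 0) ∧
  AEMeasurable (fun y => ∫ u in Ioo (0 : ℝ) 1, r u ^ (μ * q) * φ u ∂(M y)) P' ∧
  ∀ f : ℝ →ᵇ ℝ, Tendsto (fun ε => ∫ x, f (mass (fun u => φ u *
      Real.exp (-(q * cv r μ ε (dst c u 0)))) (ω ε) x) ∂(P ε)) (𝓝[>] 0)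
    (𝓝 (∫ y, f (∫ u in Ioo (0 : ℝ) 1, r u ^ (μ * q) * φ u ∂(M y)) ∂P'))

/-- MOM: convergence in law and a bounded higher moment give convergence of moments -/
def St_MOM : Prop := ∀ (Ω : ℝ → Type) [∀ ε, MeasurableSpace (Ω ε)] (P : ∀ ε, Measure (Ω ε)),
  (∀ ε, IsProbabilityMeasure (P ε)) → ∀ (Z : ∀ ε, Ω ε → ℝ),
  (∀ᶠ ε in 𝓝[>] (0 : ℝ), AEMeasurable (Z ε) (P ε) ∧ ∀ᵐ x ∂(P ε), 0 < Z ε x) →
  ∀ (Ω' : Type) [MeasurableSpace Ω'] (P' : Measure Ω') [IsProbabilityMeasure P'] (Y : Ω' → ℝ),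
  AEMeasurable Y P' →
  (∀ f : ℝ →ᵇ ℝ, Tendsto (fun ε => ∫ x, f (Z ε x) ∂(P ε)) (𝓝[>] 0) (𝓝 (∫ y, f (Y y) ∂P'))) →
  ∀ q : ℝ, q ≠ 0 → ∀ (B1 B2 : ℝ≥0∞) (q' s : ℝ), B1 < ∞ → B2 < ∞ →
  (0 < q → q < q') → (q < 0 → q' < q) → s < 0 →
  (∀ᶠ ε in 𝓝[>] (0 : ℝ), ∫⁻ x, ENNReal.ofReal (Z ε x ^ q') ∂(P ε) ≤ B1) →
  (∀ᶠ ε in 𝓝[>] (0 : ℝ), ∫⁻ x, ENNReal.ofReal (Z ε x ^ s) ∂(P ε) ≤ B2) →
  (∀ᵐ y ∂P', 0 < Y y) ∧ Integrable (fun y => Y y ^ q) P' ∧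
  (∀ᶠ ε in 𝓝[>] (0 : ℝ), Integrable (fun x => Z ε x ^ q) (P ε)) ∧
  Tendsto (fun ε => ∫ x, Z ε x ^ q ∂(P ε)) (𝓝[>] 0) (𝓝 (∫ y, Y y ^ q ∂P'))

/-- HOM: homogeneity in the weights -/
def St_HOM : Prop := ∀ (n : ℕ) (C : Matrix (Fin n) (Fin n) ℝ) (b : ℝ), 0 < b →
  ∀ p : Fin n → ℝ, (∀ i, 0 ≤ p i) → ∀ q : ℝ,
  gm C (fun i => b * p i) q = ENNReal.ofReal (b ^ q) * gm C p q

/-- POSW: the mass is a.s. positive and finite -/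
def St_POSW : Prop := ∀ (c : Bool) (r : ℝ → ℝ) (μ ε : ℝ), Adm c r → 0 < μ → 0 < ε → ε < 1 / 2 →
  ∀ (Ω : Type) [MeasurableSpace Ω] (P : Measure Ω) [IsProbabilityMeasure P] (ω : ℝ → Ω → ℝ),
  Field c r μ ε P ω →
  (∀ᵐ x ∂P, IntegrableOn (fun u => Real.exp (ω u x)) (Ico 0 1)) ∧
  (∀ w : ℝ → ℝ, Measurable w → Measurable (mass w ω)) ∧
  (∀ a b : ℝ, 0 ≤ a → a < b → b ≤ 1 → ∀ᵐ x ∂P, 0 < ∫ u in Ico a b, Real.exp (ω u x)) ∧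
  ∀ w : ℝ → ℝ, Measurable w → (∀ u, 0 ≤ w u) → (∃ K, ∀ u, w u ≤ K) →
    ∫⁻ x, ENNReal.ofReal (mass w ω x) ∂P = ENNReal.ofReal (∫ u in Ico (0 : ℝ) 1, w u)

/-- FIN: the theorem -/
def St_FIN : Prop := ∀ (c : Bool) (r : ℝ → ℝ) (μ : ℝ) (Ω : ℝ → Type)
  [∀ ε, MeasurableSpace (Ω ε)] (P : ∀ ε, Measure (Ω ε)) (ω : ∀ ε, ℝ → Ω ε → ℝ),
  Fam c r μ Ω P ω → ∀ (Ω' : Type) [MeasurableSpace Ω'] (P' : Measure Ω')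
  [IsProbabilityMeasure P'] (M : Ω' → Measure ℝ), IsChaos Ω P ω P' M →
  ∀ φ : ℝ → ℝ, Continuous φ → (∀ u, 0 < φ u) → ∀ q : ℝ, -1 / μ - 1 / 2 < q → q < 2 / μ →
  (∀ᵐ y ∂P', M y {0} = 0 ∧ M y {1} = 0 ∧
    IntegrableOn (fun u => r u ^ (μ * q) * φ u) (Ioo 0 1) (M y) ∧
    0 < ∫ u in Ioo (0 : ℝ) 1, r u ^ (μ * q) * φ u ∂(M y)) ∧
  Integrable (fun y => (∫ u in Ioo (0 : ℝ) 1, r u ^ (μ * q) * φ u ∂(M y)) ^ q) P' ∧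
  (∀ᶠ ε in 𝓝[>] (0 : ℝ), Integrable (fun x =>
    (∫ u in Ico (0 : ℝ) 1, φ u * Real.exp (ω ε u x - ω ε 0 x)) ^ q) (P ε)) ∧
  Tendsto (fun ε => Real.exp (μ * (Real.log (r ε) - 1) * (q * (q + 1) / 2)) *
      ∫ x, (∫ u in Ico (0 : ℝ) 1, φ u * Real.exp (ω ε u x - ω ε 0 x)) ^ q ∂(P ε)) (𝓝[>] 0)
    (𝓝 (∫ y, (∫ u in Ioo (0 : ℝ) 1, r u ^ (μ * q) * φ u ∂(M y)) ^ q ∂P'))

end

end Pool.Agent.L5helper98.CG
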