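import Pool.Agent.L5helper98.CG.Defs

set_option autoImplicit false

open MeasureTheory ProbabilityTheory Filter Topology Set
open scoped ENNReal BoundedContinuousFunction

namespace Pool.Agent.L5helper98.CG

noncomputable section

/-- a positive weight: measurable, bounded, bounded away from `0` -/
structure Wgt (φ : ℝ → ℝ) : Prop where
  meas : Measurable φ
  low : ∃ a : ℝ, 0 < a ∧ ∀ u, a ≤ φ u
  up : ∃ b : ℝ, ∀ u, φ u ≤ b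

/-- TILT2: the change of measure, measurable weights -/
def St_TILT2 : Prop := ∀ (c : Bool) (r : ℝ → ℝ) (μ ε : ℝ), Adm c r → 0 < μ → 0 < ε → ε < 1 / 2 →
  ∀ (Ω : Type) [MeasurableSpace Ω] (P : Measure Ω) [IsProbabilityMeasure P] (ω : ℝ → Ω → ℝ),
  Field c r μ ε P ω → ∀ φ : ℝ → ℝ, Wgt φ → ∀ q : ℝ,
  ∫⁻ x, ENNReal.ofReal ((∫ u in Ico (0 : ℝ) 1, φ u * Real.exp (ω u x - ω 0 x)) ^ q) ∂P =
    ENNReal.ofReal (Real.exp (q * (q + 1) / 2 * cv r μ ε 0)) *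
      ∫⁻ x, ENNReal.ofReal (mass (fun u => φ u * Real.exp (-(q * cv r μ ε (dst c u 0)))) ω x ^ q)
        ∂P

/-- LAW2: convergence in law of the total mass with the singular insertion, measurable weights -/
def St_LAW2 : Prop := ∀ (c : Bool) (r : ℝ → ℝ) (μ : ℝ) (Ω : ℝ → Type)
  [∀ ε, MeasurableSpace (Ω ε)] (P : ∀ ε, Measure (Ω ε)) (ω : ∀ ε, ℝ → Ω ε → ℝ),
  Fam c r μ Ω P ω → ∀ (Ω' : Type) [MeasurableSpace Ω'] (P' : Measure Ω')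
  [IsProbabilityMeasure P'] (M : Ω' → Measure ℝ), IsChaos Ω P ω P' M →
  ∀ φ : ℝ → ℝ, Wgt φ → ∀ q : ℝ, -1 / μ - 1 / 2 < q →
  (∀ᵐ y ∂P', IntegrableOn (fun u => r u ^ (μ * q) * φ u) (Ioo 0 1) (M y)) ∧
  (∀ᵐ y ∂P', M y {0} = 0 ∧ M y {1} = 0) ∧
  AEMeasurable (fun y => ∫ u in Ioo (0 : ℝ) 1, r u ^ (μ * q) * φ u ∂(M y)) P' ∧
  ∀ f : ℝ →ᵇ ℝ, Tendsto (fun ε => ∫ x, f (mass (fun u => φ u *
      Real.exp (-(q * cv r μ ε (dst c u 0)))) (ω ε) x) ∂(P ε)) (𝓝[>] 0)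
    (𝓝 (∫ y, f (∫ u in Ioo (0 : ℝ) 1, r u ^ (μ * q) * φ u ∂(M y)) ∂P'))

end

end Pool.Agent.L5helper98.CG
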