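import Pool.Agent.L5helper98.CG.Defs2

set_option autoImplicit false

open MeasureTheory ProbabilityTheory Filter Topology Set
open scoped ENNReal BoundedContinuousFunction

namespace Pool.Agent.L5helper98.CG

noncomputable section

/-- the weight of `Z_ε` -/
def wt (c : Bool) (r : ℝ → ℝ) (μ : ℝ) (φ : ℝ → ℝ) (q ε u : ℝ) : ℝ :=
  φ u * Real.exp (-(q * cv r μ ε (dst c u 0)))

lemma dst_lt (c : Bool) {u : ℝ} (hu : u ∈ Ico (0 : ℝ) 1) :
    0 ≤ dst c u 0 ∧ dst c u 0 < 1 ∧ (c = true → dst c u 0 ≤ 1 / 2) := by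
  obtain ⟨h0, h1⟩ := hu
  have ha : |u - 0| = u := by rw [sub_zero, abs_of_nonneg h0]
  unfold dst
  rw [ha]
  by_cases hc : c = true
  · simp only [hc, if_true]
    refine ⟨le_min h0 (by linarith), lt_of_le_of_lt (min_le_left _ _) h1, fun _ => ?_⟩
    rcases le_total u (1 / 2) with h | h
    · exact le_trans (min_le_left _ _) h
    · exact le_trans (min_le_right _ _) (by linarith)
  · simp only [hc]
    simp [h0, h1]

lemma dst_third (c : Bool) {u : ℝ} (hu : u ∈ Ico (1 / 3 : ℝ) (2 / 3)) : 1 / 3 ≤ dst c u 0 := by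
  obtain ⟨h0, h1⟩ := hu
  have ha : |u - 0| = u := by rw [sub_zero, abs_of_nonneg (by linarith)]
  unfold dst
  rw [ha]
  by_cases hc : c = true
  · simp only [hc, if_true]
    exact le_min h0 (by linarith)
  · simp only [hc]
    simpa using h0

lemma dst_meas (c : Bool) : Measurable fun u : ℝ => dst c u 0 := by
  unfold dst
  split_ifs
  · exact ((measurable_id.sub_const 0).norm).min
      (measurable_const.sub ((measurable_id.sub_const 0).norm))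
  · exact (measurable_id.sub_const 0).norm

lemma cv_meas0 (r : ℝ → ℝ) (μ ε : ℝ) (hr : ContinuousOn r (Ioo 0 1))
    (hε : 0 < ε) : Measurable ((Ico (0 : ℝ) 1).indicator (cv r μ ε)) := by
  have hr' : Measurable ((Ioo (0 : ℝ) 1).indicator r) := by
    rw [← Set.piecewise_eq_indicator]
    exact ContinuousOn.measurable_piecewise hr continuousOn_const measurableSet_Ioo
  have h1 : Measurable (fun d : ℝ => if ε ≤ d then -(μ * Real.log ((Ioo (0 : ℝ) 1).indicator r d))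
      else μ * (-Real.log (r ε) + (1 - d / ε) * (ε * deriv (fun t => Real.log (r t)) ε))) := by
    refine Measurable.ite measurableSet_Ici ?_ ?_
    · exact (measurable_const.mul (Real.measurable_log.comp hr')).neg
    · fun_prop
  have h2 := h1.indicator (measurableSet_Ico (a := (0 : ℝ)) (b := 1))
  convert h2 using 1
  ext d
  by_cases hd : d ∈ Ico (0 : ℝ) 1
  · rw [indicator_of_mem hd, indicator_of_mem hd]
    unfold cv
    by_cases he : ε ≤ d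
    · rw [if_pos he, if_pos he, indicator_of_mem (show d ∈ Ioo (0 : ℝ) 1 from
        ⟨lt_of_lt_of_le hε he, hd.2⟩)]
    · rw [if_neg he, if_neg he]
  · rw [indicator_of_notMem hd, indicator_of_notMem hd]

lemma wt_meas (c : Bool) (r : ℝ → ℝ) (μ ε q : ℝ) (φ : ℝ → ℝ) (hφ : Measurable φ)
    (hr : ContinuousOn r (Ioo 0 1)) (hε : 0 < ε) :
    Measurable ((Ico (0 : ℝ) 1).indicator (wt c r μ φ q ε)) := by
  have h1 := (cv_meas0 r μ ε hr hε).comp (dst_meas c)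
  have h2 : Measurable fun u => φ u *
      Real.exp (-(q * (Ico (0 : ℝ) 1).indicator (cv r μ ε) (dst c u 0))) :=
    hφ.mul (Real.measurable_exp.comp ((measurable_const.mul h1).neg))
  have h3 := h2.indicator (measurableSet_Ico (a := (0 : ℝ)) (b := 1))
  convert h3 using 1
  ext u
  by_cases hu : u ∈ Ico (0 : ℝ) 1
  · rw [indicator_of_mem hu, indicator_of_mem hu]
    unfold wt
    rw [indicator_of_mem (show dst c u 0 ∈ Ico (0 : ℝ) 1 from
      ⟨(dst_lt c hu).1, (dst_lt c hu).2.1⟩)]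
  · rw [indicator_of_notMem hu, indicator_of_notMem hu]

lemma mass_congr {Ω : Type} {w w' : ℝ → ℝ} (h : ∀ u ∈ Ico (0 : ℝ) 1, w u = w' u)
    (ω : ℝ → Ω → ℝ) : mass w ω = mass w' ω := by
  ext x
  unfold mass
  refine setIntegral_congr_fun measurableSet_Ico ?_
  intro u hu
  simp only [h u hu]

/-- uniform bounds of the weights -/
lemma wt_bounds (hKER : St_KER) (c : Bool) (r : ℝ → ℝ) (μ : ℝ) (hadm : Adm c r) (hμ : 0 < μ)
    (hB : ∀ δ ∈ Ioo (0 : ℝ) (1 / 2), ∃ B : ℝ, ∀ d : ℝ, δ ≤ d → d < 1 → (c = true → d ≤ 1 / 2) →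
      |Real.log (r d)| ≤ B) (φ : ℝ → ℝ) (hW : Wgt φ) (q : ℝ) :
    ∃ c1 C1 ε1 : ℝ, 0 < c1 ∧ 0 < C1 ∧ 0 < ε1 ∧ ε1 < 1 / 2 ∧ ∀ ε : ℝ, 0 < ε → ε ≤ ε1 →
      (∀ u ∈ Ico (1 / 3 : ℝ) (2 / 3), c1 ≤ wt c r μ φ q ε u) ∧
      (0 ≤ q → ∀ u ∈ Ico (0 : ℝ) 1, wt c r μ φ q ε u ≤ C1) ∧
      (∃ K, ∀ u ∈ Ico (0 : ℝ) 1, wt c r μ φ q ε u ≤ K) := by
  obtain ⟨K, ε₀, hK, hε₀, hε₀', h⟩ := (hKER c r μ hadm hμ hB).1 (μ / 2) (by linarith)
  obtain ⟨C, hC⟩ := hW.up
  obtain ⟨a, ha, hal⟩ := hW.low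
  have hφ0 : ∀ u, 0 < φ u := fun u => lt_of_lt_of_le ha (hal u)
  have hφC : ∀ u ∈ Ico (0 : ℝ) 1, φ u ≤ C := fun u _ => hC u
  have hφc : ∀ u ∈ Icc (0 : ℝ) 1, a ≤ φ u := fun u _ => hal u
  have hC0 : 0 < C := lt_of_lt_of_le (hφ0 0) (hφC 0 ⟨le_refl _, by norm_num⟩)
  set L := (μ + μ / 2) * Real.log 3 + K with hL
  have hlog3 : 0 < Real.log 3 := Real.log_pos (by norm_num)
  have hL0 : 0 ≤ L := by positivity
  refine ⟨a * Real.exp (-(|q| * L)), C * Real.exp (|q| * K), min ε₀ (1 / 3),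
    by positivity, by positivity, by positivity,
    lt_of_le_of_lt (min_le_left _ _) hε₀', ?_⟩
  intro ε hε hεle
  have hεε₀ : ε ≤ ε₀ := le_trans hεle (min_le_left _ _)
  have hε3 : ε ≤ 1 / 3 := le_trans hεle (min_le_right _ _)
  have hlow : ∀ u ∈ Ico (0 : ℝ) 1, -K ≤ cv r μ ε (dst c u 0) := by
    intro u hu
    obtain ⟨h0, h1, h2⟩ := dst_lt c hu
    have h3 := (h ε hε hεε₀ _ h0 h1 h2).1
    have h4 : 0 ≤ Real.log (1 / max (dst c u 0) ε) := by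
      apply Real.log_nonneg
      rw [le_div_iff₀ (lt_of_lt_of_le hε (le_max_right _ _)), one_mul]
      exact max_le h1.le (by linarith)
    have h5 : 0 ≤ (μ - μ / 2) * Real.log (1 / max (dst c u 0) ε) :=
      mul_nonneg (by linarith) h4
    linarith
  have hup : ∀ u ∈ Ico (0 : ℝ) 1, cv r μ ε (dst c u 0) ≤ (μ + μ / 2) * Real.log (1 / ε) + K := by
    intro u hu
    obtain ⟨h0, h1, h2⟩ := dst_lt c hu
    have h3 := (h ε hε hεε₀ _ h0 h1 h2).2
    have h4 : Real.log (1 / max (dst c u 0) ε) ≤ Real.log (1 / ε) := by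
      apply Real.log_le_log
      · have : 0 < max (dst c u 0) ε := lt_of_lt_of_le hε (le_max_right _ _)
        positivity
      · exact one_div_le_one_div_of_le hε (le_max_right _ _)
    nlinarith
  have hup3 : ∀ u ∈ Ico (1 / 3 : ℝ) (2 / 3), cv r μ ε (dst c u 0) ≤ L := by
    intro u hu
    have hu' : u ∈ Ico (0 : ℝ) 1 := ⟨by linarith [hu.1], by linarith [hu.2]⟩
    obtain ⟨h0, h1, h2⟩ := dst_lt c hu'
    have h3 := (h ε hε hεε₀ _ h0 h1 h2).2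
    have h4 : Real.log (1 / max (dst c u 0) ε) ≤ Real.log 3 := by
      have hd := dst_third c hu
      have hm : (1 : ℝ) / 3 ≤ max (dst c u 0) ε := le_trans hd (le_max_left _ _)
      apply Real.log_le_log
      · have : 0 < max (dst c u 0) ε := lt_of_lt_of_le hε (le_max_right _ _)
        positivity
      · rw [div_le_iff₀ (by linarith)]
        linarith
    nlinarith
  refine ⟨?_, ?_, ?_⟩
  · intro u hu
    have hu' : u ∈ Ico (0 : ℝ) 1 := ⟨by linarith [hu.1], by linarith [hu.2]⟩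
    unfold wt
    have h1 : |q * cv r μ ε (dst c u 0)| ≤ |q| * L := by
      rw [abs_mul]
      refine mul_le_mul_of_nonneg_left ?_ (abs_nonneg _)
      rw [abs_le]
      have := hlow u hu'
      have hKL : K ≤ L := by
        rw [hL]; nlinarith
      exact ⟨by linarith, hup3 u hu⟩
    have h2 : -(|q| * L) ≤ -(q * cv r μ ε (dst c u 0)) := by
      have := (abs_le.mp h1).2
      linarith
    have h3 := Real.exp_le_exp.mpr h2
    have h4 := hφc u ⟨hu'.1, hu'.2.le⟩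
    exact mul_le_mul h4 h3 (Real.exp_pos _).le (hφ0 u).le
  · intro hq u hu
    unfold wt
    have h1 : -(q * cv r μ ε (dst c u 0)) ≤ |q| * K := by
      rw [abs_of_nonneg hq]
      nlinarith [hlow u hu]
    exact mul_le_mul (hφC u hu) (Real.exp_le_exp.mpr h1) (Real.exp_pos _).le hC0.le
  · set L2 := (μ + μ / 2) * Real.log (1 / ε) + K with hL2
    have hL20 : K ≤ L2 := by
      have : 0 ≤ Real.log (1 / ε) := by
        apply Real.log_nonneg
        rw [le_div_iff₀ hε]; linarith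
      rw [hL2]; nlinarith
    refine ⟨C * Real.exp (|q| * L2), fun u hu => ?_⟩
    unfold wt
    have h1 : |q * cv r μ ε (dst c u 0)| ≤ |q| * L2 := by
      rw [abs_mul]
      refine mul_le_mul_of_nonneg_left ?_ (abs_nonneg _)
      rw [abs_le]
      have := hlow u hu
      exact ⟨by linarith, hup u hu⟩
    have h2 : -(q * cv r μ ε (dst c u 0)) ≤ |q| * L2 := by
      have := (abs_le.mp h1).1
      linarith
    exact mul_le_mul (hφC u hu) (Real.exp_le_exp.mpr h2) (Real.exp_pos _).le hC0.le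

lemma mass_third {Ω : Type} (ω : ℝ → Ω → ℝ) (x : Ω) :
    mass ((Ico (1 / 3 : ℝ) (2 / 3)).indicator fun _ => (1 : ℝ)) ω x =
      ∫ u in Ico (1 / 3 : ℝ) (2 / 3), Real.exp (ω u x) := by
  unfold mass
  have h1 : (fun u => (Ico (1 / 3 : ℝ) (2 / 3)).indicator (fun _ => (1 : ℝ)) u *
      Real.exp (ω u x)) = (Ico (1 / 3 : ℝ) (2 / 3)).indicator fun u => Real.exp (ω u x) := by
    ext u
    by_cases hu : u ∈ Ico (1 / 3 : ℝ) (2 / 3)
    · rw [indicator_of_mem hu, indicator_of_mem hu, one_mul]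
    · rw [indicator_of_notMem hu, indicator_of_notMem hu, zero_mul]
  rw [h1, setIntegral_indicator measurableSet_Ico]
  congr 2
  ext u
  simp only [mem_inter_iff, mem_Ico]
  constructor
  · rintro ⟨_, h⟩; exact h
  · rintro ⟨h, h'⟩; exact ⟨⟨by linarith, by linarith⟩, h, h'⟩

lemma Zfacts (hPOSW : St_POSW) (c : Bool) (r : ℝ → ℝ) (μ ε : ℝ) (hadm : Adm c r) (hμ : 0 < μ)
    (hε : 0 < ε) (hε2 : ε < 1 / 2) {Ω : Type} [MeasurableSpace Ω] (P : Measure Ω)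
    [IsProbabilityMeasure P] (ω : ℝ → Ω → ℝ) (hF : Field c r μ ε P ω) (φ : ℝ → ℝ)
    (hW : Wgt φ) (q c1 C1 K : ℝ)
    (h1 : ∀ u ∈ Ico (1 / 3 : ℝ) (2 / 3), c1 ≤ wt c r μ φ q ε u)
    (h2 : 0 ≤ q → ∀ u ∈ Ico (0 : ℝ) 1, wt c r μ φ q ε u ≤ C1)
    (h3 : ∀ u ∈ Ico (0 : ℝ) 1, wt c r μ φ q ε u ≤ K) :
    Measurable (mass (wt c r μ φ q ε) ω) ∧
    (∀ᵐ x ∂P, 0 < mass ((Ico (1 / 3 : ℝ) (2 / 3)).indicator fun _ => (1 : ℝ)) ω x ∧
      c1 * mass ((Ico (1 / 3 : ℝ) (2 / 3)).indicator fun _ => (1 : ℝ)) ω x ≤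
        mass (wt c r μ φ q ε) ω x) ∧
    (0 ≤ q → ∀ᵐ x ∂P, mass (wt c r μ φ q ε) ω x ≤ C1 * mass (fun _ => 1) ω x) := by
  obtain ⟨hI, hM, hpos, -⟩ := hPOSW c r μ ε hadm hμ hε hε2 Ω P ω hF
  obtain ⟨a, ha, hal⟩ := hW.low
  have hφ0 : ∀ u, 0 < φ u := fun u => lt_of_lt_of_le ha (hal u)
  have hwt := wt_meas c r μ ε q φ hW.meas hadm.smooth.continuousOn hε
  have hwt0 : ∀ u, 0 ≤ wt c r μ φ q ε u := fun u =>
    mul_nonneg (hφ0 u).le (Real.exp_pos _).le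
  have hcongr : mass (wt c r μ φ q ε) ω =
      mass ((Ico (0 : ℝ) 1).indicator (wt c r μ φ q ε)) ω :=
    mass_congr (fun u hu => (indicator_of_mem hu _).symm) ω
  have hint : ∀ᵐ x ∂P, IntegrableOn (fun u => wt c r μ φ q ε u * Real.exp (ω u x)) (Ico 0 1) := by
    filter_upwards [hI] with x hx
    have h4 : IntegrableOn (fun u => (Ico (0 : ℝ) 1).indicator (wt c r μ φ q ε) u *
        Real.exp (ω u x)) (Ico 0 1) := by
      refine Integrable.bdd_mul (c := |K|) hx hwt.aestronglyMeasurable ?_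
      filter_upwards with u
      by_cases hu : u ∈ Ico (0 : ℝ) 1
      · rw [indicator_of_mem hu, Real.norm_eq_abs, abs_of_nonneg (hwt0 u)]
        exact le_trans (h3 u hu) (le_abs_self _)
      · rw [indicator_of_notMem hu]; simp
    refine h4.congr_fun ?_ measurableSet_Ico
    intro u hu
    simp only [indicator_of_mem hu]
  refine ⟨?_, ?_, ?_⟩
  · rw [hcongr]; exact hM _ hwt
  · filter_upwards [hpos (1 / 3) (2 / 3) (by norm_num) (by norm_num) (by norm_num), hint, hI]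
      with x hx hix hI'
    refine ⟨by rw [mass_third]; exact hx, ?_⟩
    have e1 : c1 * mass ((Ico (1 / 3 : ℝ) (2 / 3)).indicator fun _ => (1 : ℝ)) ω x =
        ∫ u in Ico (0 : ℝ) 1, c1 * ((Ico (1 / 3 : ℝ) (2 / 3)).indicator (fun _ => (1 : ℝ)) u *
          Real.exp (ω u x)) := by
      unfold mass
      rw [integral_const_mul]
    rw [e1]
    unfold mass
    refine setIntegral_mono_on ?_ hix measurableSet_Ico ?_
    · refine Integrable.const_mul ?_ c1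
      refine Integrable.bdd_mul (c := 1) hI'
        ((measurable_const.indicator measurableSet_Ico).aestronglyMeasurable) ?_
      filter_upwards with u
      by_cases hu : u ∈ Ico (1 / 3 : ℝ) (2 / 3)
      · rw [indicator_of_mem hu]; simp
      · rw [indicator_of_notMem hu]; simp
    · intro u hu
      by_cases hu3 : u ∈ Ico (1 / 3 : ℝ) (2 / 3)
      · rw [indicator_of_mem hu3, one_mul]
        exact mul_le_mul_of_nonneg_right (h1 u hu3) (Real.exp_pos _).le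
      · rw [indicator_of_notMem hu3, zero_mul, mul_zero]
        exact mul_nonneg (hwt0 u) (Real.exp_pos _).le
  · intro hq
    filter_upwards [hint, hI] with x hix hI'
    have e1 : C1 * mass (fun _ => 1) ω x = ∫ u in Ico (0 : ℝ) 1, C1 * (1 * Real.exp (ω u x)) := by
      unfold mass
      simp only [one_mul]
      rw [integral_const_mul]
    rw [e1]
    unfold mass
    refine setIntegral_mono_on hix ?_ measurableSet_Ico ?_
    · refine Integrable.const_mul ?_ C1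
      simp only [one_mul]
      exact hI'
    · intro u hu
      rw [one_mul]
      exact mul_le_mul_of_nonneg_right (h2 hq u hu) (Real.exp_pos _).le

lemma lint_le {Ω : Type} [MeasurableSpace Ω] (P : Measure Ω) (Z T : Ω → ℝ) (b s : ℝ)
    (hb : 0 < b) (hs : s < 0) (h : ∀ᵐ x ∂P, 0 < T x ∧ b * T x ≤ Z x) (B : ℝ≥0∞)
    (hB : ∫⁻ x, ENNReal.ofReal (T x ^ s) ∂P ≤ B) :
    ∫⁻ x, ENNReal.ofReal (Z x ^ s) ∂P ≤ ENNReal.ofReal (b ^ s) * B := by
  calc ∫⁻ x, ENNReal.ofReal (Z x ^ s) ∂P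
      ≤ ∫⁻ x, ENNReal.ofReal (b ^ s) * ENNReal.ofReal (T x ^ s) ∂P := by
        refine lintegral_mono_ae ?_
        filter_upwards [h] with x hx
        rw [← ENNReal.ofReal_mul (Real.rpow_nonneg hb.le _), ← Real.mul_rpow hb.le hx.1.le]
        exact ENNReal.ofReal_le_ofReal
          (Real.rpow_le_rpow_of_nonpos (mul_pos hb hx.1) hx.2 hs.le)
    _ = ENNReal.ofReal (b ^ s) * ∫⁻ x, ENNReal.ofReal (T x ^ s) ∂P :=
        lintegral_const_mul' _ _ ENNReal.ofReal_ne_top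
    _ ≤ _ := by gcongr

lemma lint_le' {Ω : Type} [MeasurableSpace Ω] (P : Measure Ω) (Z T : Ω → ℝ) (b s : ℝ)
    (hb : 0 < b) (hs : 0 < s) (h : ∀ᵐ x ∂P, 0 ≤ Z x ∧ 0 ≤ T x ∧ Z x ≤ b * T x) (B : ℝ≥0∞)
    (hB : ∫⁻ x, ENNReal.ofReal (T x ^ s) ∂P ≤ B) :
    ∫⁻ x, ENNReal.ofReal (Z x ^ s) ∂P ≤ ENNReal.ofReal (b ^ s) * B := by
  calc ∫⁻ x, ENNReal.ofReal (Z x ^ s) ∂P
      ≤ ∫⁻ x, ENNReal.ofReal (b ^ s) * ENNReal.ofReal (T x ^ s) ∂P := by
        refine lintegral_mono_ae ?_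
        filter_upwards [h] with x hx
        rw [← ENNReal.ofReal_mul (Real.rpow_nonneg hb.le _), ← Real.mul_rpow hb.le hx.2.1]
        exact ENNReal.ofReal_le_ofReal (Real.rpow_le_rpow hx.1 hx.2.2 hs.le)
    _ = ENNReal.ofReal (b ^ s) * ∫⁻ x, ENNReal.ofReal (T x ^ s) ∂P :=
        lintegral_const_mul' _ _ ENNReal.ofReal_ne_top
    _ ≤ _ := by gcongr

/-- the key facts about `Z_ε`, and the consequence of MOM -/
lemma core (hUNI : St_UNI) (hLAW : St_LAW2) (hMOM : St_MOM) (hPOSW : St_POSW) (hKER : St_KER)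
    (hBDD : St_BDD) (c : Bool) (r : ℝ → ℝ) (μ : ℝ) (Ω : ℝ → Type)
    [∀ ε, MeasurableSpace (Ω ε)] (P : ∀ ε, Measure (Ω ε)) (ω : ∀ ε, ℝ → Ω ε → ℝ)
    (hF : Fam c r μ Ω P ω) (Ω' : Type) [MeasurableSpace Ω'] (P' : Measure Ω')
    [IsProbabilityMeasure P'] (M : Ω' → Measure ℝ) (hM : IsChaos Ω P ω P' M)
    (φ : ℝ → ℝ) (hW : Wgt φ) (q : ℝ) (hq1 : -1 / μ - 1 / 2 < q)
    (hq2 : q < 2 / μ) :
    (∀ᵐ y ∂P', 0 < ∫ u in Ioo (0 : ℝ) 1, r u ^ (μ * q) * φ u ∂(M y)) ∧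
    (q ≠ 0 → Integrable (fun y => (∫ u in Ioo (0 : ℝ) 1, r u ^ (μ * q) * φ u ∂(M y)) ^ q) P' ∧
      (∀ᶠ ε in 𝓝[>] (0 : ℝ), Integrable (fun x => mass (wt c r μ φ q ε) (ω ε) x ^ q) (P ε)) ∧
      Tendsto (fun ε => ∫ x, mass (wt c r μ φ q ε) (ω ε) x ^ q ∂(P ε)) (𝓝[>] 0)
        (𝓝 (∫ y, (∫ u in Ioo (0 : ℝ) 1, r u ^ (μ * q) * φ u ∂(M y)) ^ q ∂P'))) := by
  have hadm := hF.adm
  have hμ := hF.mu_pos
  have hB := hBDD c r μ hadm hμ (by
    refine Eventually.frequently ?_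
    filter_upwards [hF.field] with ε hε
    exact ⟨Ω ε, inferInstance, P ε, hF.prob ε, ω ε, hε⟩)
  obtain ⟨c1, C1, ε1, hc1, hC1, hε1, hε1', hw⟩ := wt_bounds hKER c r μ hadm hμ hB φ hW q
  obtain ⟨-, -, hmeas, hconv⟩ := hLAW c r μ Ω P ω hF Ω' P' M hM φ hW q hq1
  have hZ : ∀ᶠ ε in 𝓝[>] (0 : ℝ), Measurable (mass (wt c r μ φ q ε) (ω ε)) ∧
      (∀ᵐ x ∂(P ε), 0 < mass ((Ico (1 / 3 : ℝ) (2 / 3)).indicator fun _ => (1 : ℝ)) (ω ε) x ∧
        c1 * mass ((Ico (1 / 3 : ℝ) (2 / 3)).indicator fun _ => (1 : ℝ)) (ω ε) x ≤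
          mass (wt c r μ φ q ε) (ω ε) x) ∧
      (0 ≤ q → ∀ᵐ x ∂(P ε), mass (wt c r μ φ q ε) (ω ε) x ≤ C1 * mass (fun _ => 1) (ω ε) x) := by
    filter_upwards [hF.field, Ioc_mem_nhdsGT hε1] with ε hFε hεm
    have := hF.prob ε
    obtain ⟨h1, h2, K, h3⟩ := hw ε hεm.1 hεm.2
    exact Zfacts hPOSW c r μ ε hadm hμ hεm.1 (lt_of_le_of_lt hεm.2 hε1') (P ε) (ω ε) hFε φ hW
      q c1 C1 K h1 h2 h3
  -- negative moments of every order
  have hneg : ∀ s : ℝ, s < 0 → ∃ B : ℝ≥0∞, B < ∞ ∧ ∀ᶠ ε in 𝓝[>] (0 : ℝ),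
      ∫⁻ x, ENNReal.ofReal (mass (wt c r μ φ q ε) (ω ε) x ^ s) ∂(P ε) ≤ B := by
    intro s hs
    obtain ⟨B, hBt, hBε⟩ := hUNI c r μ Ω P ω hF s (Or.inl hs)
    refine ⟨ENNReal.ofReal (c1 ^ s) * B, ENNReal.mul_lt_top ENNReal.ofReal_lt_top hBt, ?_⟩
    filter_upwards [hBε, hZ] with ε hb hz
    exact lint_le (P ε) _ _ c1 s hc1 hs hz.2.1 B hb.2
  obtain ⟨B1, hB1, hB1'⟩ := hneg (-1) (by norm_num)
  have hpos : ∀ᶠ ε in 𝓝[>] (0 : ℝ), AEMeasurable (mass (wt c r μ φ q ε) (ω ε)) (P ε) ∧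
      ∀ᵐ x ∂(P ε), 0 < mass (wt c r μ φ q ε) (ω ε) x := by
    filter_upwards [hZ] with ε hz
    refine ⟨hz.1.aemeasurable, ?_⟩
    filter_upwards [hz.2.1] with x hx
    exact lt_of_lt_of_le (mul_pos hc1 hx.1) hx.2
  have hconv' : ∀ f : ℝ →ᵇ ℝ, Tendsto (fun ε => ∫ x, f (mass (wt c r μ φ q ε) (ω ε) x) ∂(P ε))
      (𝓝[>] 0) (𝓝 (∫ y, f (∫ u in Ioo (0 : ℝ) 1, r u ^ (μ * q) * φ u ∂(M y)) ∂P')) :=
    fun f => hconv f
  refine ⟨?_, ?_⟩
  · obtain ⟨B2, hB2, hB2'⟩ := hneg (-2) (by norm_num)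
    exact (hMOM Ω P hF.prob (fun ε => mass (wt c r μ φ q ε) (ω ε)) hpos Ω' P' _ hmeas hconv'
      (-1) (by norm_num) B2 B1 (-2) (-1) hB2 hB1 (by intro h; linarith) (by intro h; linarith)
      (by norm_num) hB2' hB1').1
  · intro hq
    rcases lt_or_gt_of_ne hq with hneg' | hpos'
    · obtain ⟨B2, hB2, hB2'⟩ := hneg (2 * q) (by linarith)
      exact (hMOM Ω P hF.prob (fun ε => mass (wt c r μ φ q ε) (ω ε)) hpos Ω' P' _ hmeas hconv'
        q hq B2 B1 (2 * q) (-1) hB2 hB1 (by intro h; linarith) (by intro h; linarith)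
        (by norm_num) hB2' hB1').2
    · -- choose `q'` with `max q 1 < q' < 2/μ`
      have h2μ : 1 < 2 / μ := by
        rw [lt_div_iff₀ hμ]; linarith [hF.mu_lt]
      obtain ⟨q', hq'1, hq'2⟩ := exists_between (max_lt hq2 h2μ)
      obtain ⟨B2, hB2, hB2'⟩ := hUNI c r μ Ω P ω hF q'
        (Or.inr ⟨lt_of_le_of_lt (le_max_right _ _) hq'1, hq'2⟩)
      have hq'0 : 0 < q' := lt_of_lt_of_le zero_lt_one
        (le_trans (le_max_right _ _) hq'1.le)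
      refine (hMOM Ω P hF.prob (fun ε => mass (wt c r μ φ q ε) (ω ε)) hpos Ω' P' _ hmeas hconv'
        q hq (ENNReal.ofReal (C1 ^ q') * B2) B1 q' (-1)
        (ENNReal.mul_lt_top ENNReal.ofReal_lt_top hB2) hB1
        (fun _ => lt_of_le_of_lt (le_max_left _ _) hq'1) (by intro h; linarith)
        (by norm_num) ?_ hB1').2
      filter_upwards [hB2', hZ] with ε hb hz
      refine lint_le' (P ε) _ (mass (fun _ => 1) (ω ε)) C1 q' hC1 hq'0 ?_ B2 hb.1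
      filter_upwards [hz.2.1, hz.2.2 hpos'.le] with x hx1 hx2
      refine ⟨(lt_of_lt_of_le (mul_pos hc1 hx1.1) hx1.2).le, ?_, hx2⟩
      unfold mass
      refine setIntegral_nonneg measurableSet_Ico (fun u _ => ?_)
      rw [one_mul]; exact (Real.exp_pos _).le

lemma tilt_int (hTILT : St_TILT2) (hPOSW : St_POSW) (c : Bool) (r : ℝ → ℝ) (μ ε : ℝ)
    (hadm : Adm c r) (hμ : 0 < μ) (hε : 0 < ε) (hε2 : ε < 1 / 2) {Ω : Type} [MeasurableSpace Ω]
    (P : Measure Ω) [IsProbabilityMeasure P] (ω : ℝ → Ω → ℝ) (hF : Field c r μ ε P ω)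
    (φ : ℝ → ℝ) (hW : Wgt φ) (q : ℝ)
    (hint : Integrable (fun x => mass (wt c r μ φ q ε) ω x ^ q) P) :
    Integrable (fun x => (∫ u in Ico (0 : ℝ) 1, φ u * Real.exp (ω u x - ω 0 x)) ^ q) P ∧
    ∫ x, (∫ u in Ico (0 : ℝ) 1, φ u * Real.exp (ω u x - ω 0 x)) ^ q ∂P =
      Real.exp (q * (q + 1) / 2 * cv r μ ε 0) * ∫ x, mass (wt c r μ φ q ε) ω x ^ q ∂P := by
  obtain ⟨hI, hM, -, -⟩ := hPOSW c r μ ε hadm hμ hε hε2 Ω P ω hF
  obtain ⟨a, ha, hal⟩ := hW.low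
  have hφ0 : ∀ u, 0 < φ u := fun u => lt_of_lt_of_le ha (hal u)
  have hT := hTILT c r μ ε hadm hμ hε hε2 Ω P ω hF φ hW q
  set T : Ω → ℝ := fun x => ∫ u in Ico (0 : ℝ) 1, φ u * Real.exp (ω u x - ω 0 x) with hTdef
  have hTm : Measurable T := by
    have e1 : T = fun x => Real.exp (-(ω 0 x)) * mass φ ω x := by
      ext x
      simp only [hTdef]
      unfold mass
      rw [← integral_const_mul]
      refine integral_congr_ae (Eventually.of_forall fun u => ?_)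
      simp only
      rw [sub_eq_add_neg, Real.exp_add]
      ring
    rw [e1]
    have h0 : Measurable (ω 0) := hF.meas.comp (measurable_const.prodMk measurable_id)
    exact (Real.measurable_exp.comp h0.neg).mul (hM φ hW.meas)
  have hT0 : ∀ x, 0 ≤ T x ^ q := fun x => Real.rpow_nonneg
    (setIntegral_nonneg measurableSet_Ico fun u _ =>
      mul_nonneg (hφ0 u).le (Real.exp_pos _).le) _
  have hZ0 : ∀ x, 0 ≤ mass (wt c r μ φ q ε) ω x ^ q := fun x => Real.rpow_nonneg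
    (setIntegral_nonneg measurableSet_Ico fun u _ =>
      mul_nonneg (mul_nonneg (hφ0 u).le (Real.exp_pos _).le) (Real.exp_pos _).le) _
  have hZl : ∫⁻ x, ENNReal.ofReal (mass (wt c r μ φ q ε) ω x ^ q) ∂P =
      ENNReal.ofReal (∫ x, mass (wt c r μ φ q ε) ω x ^ q ∂P) :=
    (ofReal_integral_eq_lintegral_ofReal hint (Eventually.of_forall hZ0)).symm
  have hT' : ∫⁻ x, ENNReal.ofReal (T x ^ q) ∂P =
      ENNReal.ofReal (Real.exp (q * (q + 1) / 2 * cv r μ ε 0) *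
        ∫ x, mass (wt c r μ φ q ε) ω x ^ q ∂P) := by
    rw [ENNReal.ofReal_mul (Real.exp_pos _).le, ← hZl]
    exact hT
  have hTq : Measurable fun x => T x ^ q := hTm.pow_const q
  constructor
  · refine ⟨hTq.aestronglyMeasurable, ?_⟩
    rw [hasFiniteIntegral_iff_ofReal (Eventually.of_forall hT0), hT']
    exact ENNReal.ofReal_lt_top
  · rw [integral_eq_lintegral_of_nonneg_ae (Eventually.of_forall hT0) hTq.aestronglyMeasurable,
      hT', ENNReal.toReal_ofReal]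
    exact mul_nonneg (Real.exp_pos _).le (integral_nonneg hZ0)

/-- FIN: the theorem -/
def St_FIN2 : Prop := ∀ (c : Bool) (r : ℝ → ℝ) (μ : ℝ) (Ω : ℝ → Type)
  [∀ ε, MeasurableSpace (Ω ε)] (P : ∀ ε, Measure (Ω ε)) (ω : ∀ ε, ℝ → Ω ε → ℝ),
  Fam c r μ Ω P ω → ∀ (Ω' : Type) [MeasurableSpace Ω'] (P' : Measure Ω')
  [IsProbabilityMeasure P'] (M : Ω' → Measure ℝ), IsChaos Ω P ω P' M →
  ∀ φ : ℝ → ℝ, Wgt φ → ∀ q : ℝ, -1 / μ - 1 / 2 < q → q < 2 / μ →
  (∀ᵐ y ∂P', M y {0} = 0 ∧ M y {1} = 0 ∧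
    IntegrableOn (fun u => r u ^ (μ * q) * φ u) (Ioo 0 1) (M y) ∧
    0 < ∫ u in Ioo (0 : ℝ) 1, r u ^ (μ * q) * φ u ∂(M y)) ∧
  Integrable (fun y => (∫ u in Ioo (0 : ℝ) 1, r u ^ (μ * q) * φ u ∂(M y)) ^ q) P' ∧
  (∀ᶠ ε in 𝓝[>] (0 : ℝ), Integrable (fun x =>
    (∫ u in Ico (0 : ℝ) 1, φ u * Real.exp (ω ε u x - ω ε 0 x)) ^ q) (P ε)) ∧
  Tendsto (fun ε => Real.exp (μ * (Real.log (r ε) - 1) * (q * (q + 1) / 2)) *
      ∫ x, (∫ u in Ico (0 : ℝ) 1, φ u * Real.exp (ω ε u x - ω ε 0 x)) ^ q ∂(P ε)) (𝓝[>] 0)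
    (𝓝 (∫ y, (∫ u in Ioo (0 : ℝ) 1, r u ^ (μ * q) * φ u ∂(M y)) ^ q ∂P'))

theorem FIN_holds (hUNI : St_UNI) (hLAW : St_LAW2) (hMOM : St_MOM) (hPOSW : St_POSW)
    (hKER : St_KER) (hBDD : St_BDD) (hTILT : St_TILT2) : St_FIN2 := by
  intro c r μ Ω _ P ω hF Ω' _ P' _ M hM φ hW q hq1 hq2
  have hadm := hF.adm
  have hμ := hF.mu_pos
  obtain ⟨hInt, hAt, -, -⟩ := hLAW c r μ Ω P ω hF Ω' P' M hM φ hW q hq1
  obtain ⟨hY, hcore⟩ := core hUNI hLAW hMOM hPOSW hKER hBDD c r μ Ω P ω hF Ω' P' M hM φ hW q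
    hq1 hq2
  refine ⟨?_, ?_⟩
  · filter_upwards [hInt, hAt, hY] with y h1 h2 h3
    exact ⟨h2.1, h2.2, h1, h3⟩
  by_cases hq : q = 0
  · subst hq
    have hp : ∀ ε, IsProbabilityMeasure (P ε) := hF.prob
    refine ⟨by simp, by simp, ?_⟩
    simp
  · obtain ⟨h1, h2, h3⟩ := hcore hq
    have hT : ∀ᶠ ε in 𝓝[>] (0 : ℝ),
        Integrable (fun x => (∫ u in Ico (0 : ℝ) 1,
          φ u * Real.exp (ω ε u x - ω ε 0 x)) ^ q) (P ε) ∧
        ∫ x, (∫ u in Ico (0 : ℝ) 1, φ u * Real.exp (ω ε u x - ω ε 0 x)) ^ q ∂(P ε) =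
          Real.exp (q * (q + 1) / 2 * cv r μ ε 0) *
            ∫ x, mass (wt c r μ φ q ε) (ω ε) x ^ q ∂(P ε) := by
      filter_upwards [hF.field, h2, Ioo_mem_nhdsGT (show (0 : ℝ) < 1 / 2 by norm_num)]
        with ε hFε hε2 hε
      have := hF.prob ε
      exact tilt_int hTILT hPOSW c r μ ε hadm hμ hε.1 hε.2 (P ε) (ω ε) hFε φ hW q hε2
    refine ⟨h1, hT.mono fun ε h => h.1, ?_⟩
    have hB := hBDD c r μ hadm hμ (by
      refine Eventually.frequently ?_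
      filter_upwards [hF.field] with ε hε
      exact ⟨Ω ε, inferInstance, P ε, hF.prob ε, ω ε, hε⟩)
    have hlim := (hKER c r μ hadm hμ hB).2
    have hexp : Tendsto (fun ε => Real.exp (q * (q + 1) / 2 *
        (cv r μ ε 0 + μ * (Real.log (r ε) - 1)))) (𝓝[>] 0) (𝓝 1) := by
      have := (Real.continuous_exp.tendsto _).comp (hlim.const_mul (q * (q + 1) / 2))
      simpa [Function.comp_def] using this
    have hmul := hexp.mul h3
    rw [one_mul] at hmul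
    refine hmul.congr' ?_
    filter_upwards [hT] with ε hε
    rw [hε.2, ← mul_assoc, ← Real.exp_add]
    congr 2
    ring

end

end Pool.Agent.L5helper98.CG
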