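import Pool.Agent.L5helper98.CG.Main
import Pool.Agent.L5helper56.CG.LAW2

set_option autoImplicit false

namespace Pool.Agent.L5helper98.CG

theorem main : St_FIN2 :=
  main0 (Pool.Agent.L5helper56.CG.LAW2_holds LAW' (INS' POSW') POSW')

end Pool.Agent.L5helper98.CG
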