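import Pool.Agent.L5helper98.CG.Part
import Pool.Agent.L5helper75.CG.POSW
import Pool.Agent.L5helper15.CG.TILT
import Pool.Agent.L5helper64.CG.LAW

set_option autoImplicit false

namespace Pool.Agent.L5helper98.CG

theorem POSW' : St_POSW := Pool.Agent.L5helper75.CG.POSW_holds

theorem LAW' : St_LAW :=
  Pool.Agent.L5helper64.CG.LAW_holds (LAW1' POSW') (INS' POSW') Pool.Agent.L5helper50.CG.BDD_holds
    POSW'

theorem TILT2' : St_TILT2 :=
  Pool.Agent.L5helper15.CG.TILT2_holds Pool.Agent.L5helper58.CG.TILT1_holds POSW'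
    Pool.Agent.L5helper76.CG.FPSD_holds

theorem main0 (hLAW2 : St_LAW2) : St_FIN2 :=
  FIN_holds (UNI' POSW') hLAW2 Pool.Agent.L5helper67.CG.MOM_holds POSW'
    Pool.Agent.L5helper37.CG.KER_holds Pool.Agent.L5helper50.CG.BDD_holds TILT2'

end Pool.Agent.L5helper98.CG
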