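import Pool.Agent.L5helper98.CG.Fin
import Pool.Agent.L5helper79.CG.STEIN
import Pool.Agent.L5helper1.CG.KAH
import Pool.Agent.L5helper5.CG.MARG
import Pool.Agent.L5helper17.CG.ADD
import Pool.Agent.L5helper83.CG.HOM
import Pool.Agent.L5helper33.CG.IND
import Pool.Agent.L5helper49.CG.KPSD
import Pool.Agent.L5helper56.CG.KLOG
import Pool.Agent.L5helper72.CG.POS
import Pool.Agent.L5helper75.CG.NEG
import Pool.Agent.L5helper94.CG.RIE
import Pool.Agent.L5helper76.CG.FPSD
import Pool.Agent.L5helper37.CG.KER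
import Pool.Agent.L5helper50.CG.BDD
import Pool.Agent.L5helper99.CG.UNI
import Pool.Agent.L5helper9.CG.SMALL
import Pool.Agent.L5helper70.CG.INS
import Pool.Agent.L5helper58.CG.TILT1
import Pool.Agent.L5helper20.CG.LAW1
import Pool.Agent.L5helper67.CG.MOM

set_option autoImplicit false

namespace Pool.Agent.L5helper98.CG

theorem KAH' : St_KAH :=
  Pool.Agent.L5helper1.CG.KAH_holds Pool.Agent.L5helper79.CG.STEIN_holds
    Pool.Agent.L5helper5.CG.MARG_holds

theorem POS' : St_POS :=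
  Pool.Agent.L5helper72.CG.POS_holds KAH' Pool.Agent.L5helper17.CG.ADD_holds
    Pool.Agent.L5helper33.CG.IND_holds Pool.Agent.L5helper49.CG.KPSD_holds
    Pool.Agent.L5helper56.CG.KLOG_holds

theorem NEG' : St_NEG :=
  Pool.Agent.L5helper75.CG.NEG_holds KAH' Pool.Agent.L5helper17.CG.ADD_holds
    Pool.Agent.L5helper33.CG.IND_holds Pool.Agent.L5helper49.CG.KPSD_holds
    Pool.Agent.L5helper56.CG.KLOG_holds POS'

theorem UNI' (hPOSW : St_POSW) : St_UNI :=
  Pool.Agent.L5helper99.CG.UNI_holds KAH' Pool.Agent.L5helper17.CG.ADD_holds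
    Pool.Agent.L5helper83.CG.HOM_holds Pool.Agent.L5helper5.CG.MARG_holds
    Pool.Agent.L5helper49.CG.KPSD_holds Pool.Agent.L5helper56.CG.KLOG_holds POS' NEG'
    Pool.Agent.L5helper94.CG.RIE_holds Pool.Agent.L5helper76.CG.FPSD_holds
    Pool.Agent.L5helper37.CG.KER_holds Pool.Agent.L5helper50.CG.BDD_holds hPOSW

theorem SMALL' : St_SMALL :=
  Pool.Agent.L5helper9.CG.SMALL_holds KAH' Pool.Agent.L5helper17.CG.ADD_holds
    Pool.Agent.L5helper94.CG.RIE_holds Pool.Agent.L5helper76.CG.FPSD_holds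
    Pool.Agent.L5helper37.CG.KER_holds Pool.Agent.L5helper50.CG.BDD_holds

theorem INS' (hPOSW : St_POSW) : St_INS :=
  Pool.Agent.L5helper70.CG.INS_holds SMALL' Pool.Agent.L5helper37.CG.KER_holds
    Pool.Agent.L5helper50.CG.BDD_holds hPOSW

theorem LAW1' (hPOSW : St_POSW) : St_LAW1 := Pool.Agent.L5helper20.CG.LAW1.LAW1_holds hPOSW

end Pool.Agent.L5helper98.CG
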